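import Pool.Agent.Lib.helper4.CXExpH

set_option autoImplicit false

namespace Pool.Agent.H.MP_7f5e5b_lc

open Pool.Agent.Lib.CX

def nr {X : Type} (ad : X → X → Prop) (a b : X) : Prop := a = b ∨ ad a b ∨ ad b a

theorem nr.symm {X : Type} {ad : X → X → Prop} {a b : X} (h : nr ad a b) : nr ad b a := by
  unfold nr at *; tauto

/-- the guarding game on ordered configurations -/
def LG {X : Type} (vs : List X) (ad : X → X → Prop) (k : ℕ) : Prop :=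
  ∃ W : List X → Prop, (∃ l, W l) ∧ ∀ l, W l → l.length = k ∧ l.Nodup ∧ (∀ x ∈ l, x ∈ vs) ∧
    ∀ v ∈ vs, ∃ l', W l' ∧ v ∈ l' ∧ List.Forall₂ (nr ad) l l'

theorem fn_of {X : Type} {r : X → X → Prop} {l l' : List X} (h : List.Forall₂ r l l') (h1 : l'.Nodup) :
    ∃ f : X → X, (∀ x ∈ l, f x ∈ l' ∧ r x (f x)) ∧ ∀ x ∈ l, ∀ y ∈ l, f x = f y → x = y := by
  classical
  induction h with
  | nil => exact ⟨id, by simp, by simp⟩
  | @cons a b l l' h _ ih =>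
    obtain ⟨h2, h3⟩ := List.nodup_cons.1 h1
    obtain ⟨f, f1, f2⟩ := ih h3
    refine ⟨fun x => if x = a then b else f x, fun x hx => ?_, fun x hx y hy => ?_⟩ <;> beta_reduce <;> split_ifs <;>
      grind

variable {U : Type} [DecidableEq U]

abbrev Lit (U : Type) := (Bool × U) × Bool
abbrev Fm (U : Type) := List (ℕ × List (Lit U))
/-- kind, phase, tag, gadget, old value, new value, clause -/
abbrev X (U : Type) := ℕ × ℕ × ℕ × Option U × Bool × Bool × List (Lit U)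

abbrev mM (i c : ℕ) : X U := (0, i, c, none, false, false, [])
abbrev hH (i : ℕ) : X U := (1, i, 0, none, false, false, [])
abbrev pP (x : U) (o n : Bool) (i : ℕ) : X U := (2, i, 0, some x, o, n, [])
abbrev sS (g : Option U) : X U := (3, 0, 0, g, false, false, [])
abbrev pp (g : Option U) : X U := (4, 0, 0, g, false, false, [])
abbrev tS : X U := (5, 0, 0, none, false, false, [])
abbrev qQ (i : ℕ) : X U := (6, i, 0, none, false, false, [])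
abbrev tT (i c : ℕ) (L : List (Lit U)) : X U := (7, i, c, none, false, false, L)

def ad (a b : X U) : Prop :=
  (a.1 = 0 ∧ (b.1 = 0 ∨ b.1 = 2 ∧ (a.2.2.1 = 2 ∨ b.2.1 = (a.2.1 + 1) % 3))) ∨
  (a.1 = 1 ∧ (b.1 = 1 ∨ b.1 = 2 ∧ a.2.1 = (b.2.1 + 1) % 3)) ∨
  (a.1 = 2 ∧ b.1 = 2 ∧ a.2.2.2.1 = b.2.2.2.1 ∧
    (a.2.1 = b.2.1 ∨ b.2.1 = (a.2.1 + 1) % 3 ∧ b.2.2.2.2.1 = a.2.2.2.2.2.1)) ∨
  (a.1 = 3 ∧ b.1 ≤ 3) ∨ (a.1 = 4 ∧ 1 ≤ b.1 ∧ b.1 ≤ 3 ∧ a.2.2.2.1 = b.2.2.2.1) ∨ (a.1 = 5 ∧ b.1 ≠ 4) ∨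
  (6 ≤ a.1 ∧ 6 ≤ b.1) ∨
  (a.1 = 6 ∧ (b.1 = 0 ∧ (b.2.2.1 = 2 ∨ b.2.1 ≠ a.2.1) ∨ b.1 = 1 ∧ b.2.1 = a.2.1)) ∨
  (a.1 = 7 ∧ (b.1 = 0 ∧ b.2.2.1 ≠ a.2.2.1 ∨ b.1 = 1 ∧ b.2.1 ≠ a.2.1 ∨ b.1 = 2 ∧ b.2.1 = a.2.1 ∧
    ∃ l ∈ a.2.2.2.2.2.2, b.2.2.2.1 = some l.1.2 ∧ (if l.1.1 = true then b.2.2.2.2.2.1 else b.2.2.2.2.1) = l.2))

def xs (R : Fm U) : List U := R.flatMap fun C => C.2.map fun l => l.1.2
def cls (R : Fm U) : Fm U :=
  R ++ (xs R).flatMap fun x => (List.range 3).map fun c => (c, [((true, x), true), ((true, x), false)])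
def gs (R : Fm U) : List (Option U) := none :: (xs R).dedup.map some
def vs (R : Fm U) : List (X U) :=
  mM 0 2 :: tS :: ((List.range 3).flatMap (fun i => [mM i 0, mM i 1, hH i, qQ i, tT 3 i []] ++
    ((xs R).flatMap (fun x => [pP x false false i, pP x true false i, pP x false true i, pP x true true i]) ++
      (cls R).map fun C => tT i C.1 C.2)) ++ (gs R).flatMap fun g => [sS g, pp g])
def rs (R : Fm U) : List (Option (Option U)) := none :: (gs R).map some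
def role (a : X U) : Option (Option U) := if a.1 = 0 ∨ 5 ≤ a.1 then none else some a.2.2.2.1

variable {R : Fm U}

theorem mem_vs {a : X U} : a ∈ vs R ↔ a = mM 0 2 ∨ a = tS ∨ (∃ i < 3, (∃ c < 2, a = mM i c) ∨ a = hH i ∨
    a = qQ i ∨ a = tT 3 i [] ∨ (∃ x ∈ xs R, ∃ o n, a = pP x o n i) ∨ ∃ C ∈ cls R, a = tT i C.1 C.2) ∨
    ∃ g ∈ gs R, a = sS g ∨ a = pp g := by
  simp only [vs, List.mem_cons, List.mem_append, List.mem_flatMap, List.mem_range, List.mem_map,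
    List.not_mem_nil, or_false, Bool.exists_bool, or_assoc, eq_comm (b := a), Nat.lt_succ_iff_lt_or_eq (n := 1),
    Nat.lt_one_iff, or_and_right, exists_or, exists_eq_left]

theorem mem_rs {r : Option (Option U)} : r ∈ rs R ↔ r = none ∨ r = some none ∨ ∃ x ∈ xs R, r = some (some x) := by
  simp [rs, gs, eq_comm]

theorem mem_gs {g : Option U} : g ∈ gs R ↔ g = none ∨ ∃ x ∈ xs R, g = some x := by
  simp [gs, eq_comm]

theorem role_mem {a : X U} (h : a ∈ vs R) : role a ∈ rs R := by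
  rcases mem_vs.1 h with rfl | rfl | ⟨i, -, ⟨c, -, rfl⟩ | rfl | rfl | rfl | ⟨x, hx, o, n, rfl⟩ | ⟨C, -, rfl⟩⟩ |
    ⟨g, hg, rfl | rfl⟩ <;> simp [role, rs, *] <;> simp [mem_gs, *]

theorem rs_nodup : (rs R).Nodup := by
  simp [rs, gs, List.nodup_map_iff (Option.some_injective _), List.nodup_dedup, -List.map_map]

def piN (j c i : ℕ) (u v : U → Bool) : Option (Option U) → X U
  | none => mM j c
  | some none => hH i
  | some (some x) => pP x (u x) (v x) i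

def hub : Option (Option U) → X U
  | none => tS
  | some g => sS g

def phi (y : X U) (r : Option (Option U)) : X U := if r = role y then y else hub r

def Mv (R : Fm U) (π π' : Option (Option U) → X U) : Prop :=
  ∃ σ : Equiv.Perm (Option (Option U)), (∀ r, σ r ∈ rs R ↔ r ∈ rs R) ∧ ∀ r ∈ rs R, nr ad (π r) (π' (σ r))

theorem Mv.symm {π π' : Option (Option U) → X U} (h : Mv R π π') : Mv R π' π := by
  obtain ⟨σ, h1, h2⟩ := h
  have : ∀ r, σ.symm r ∈ rs R ↔ r ∈ rs R := fun r => by rw [← h1, Equiv.apply_symm_apply]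
  exact ⟨σ.symm, this, fun r hr => by simpa using (h2 _ ((this r).2 hr)).symm⟩

theorem mv_phi {π : Option (Option U) → X U} {y : X U} {r0 : Option (Option U)} (hy : y ∈ vs R) (h0 : r0 ∈ rs R)
    (h1 : nr ad (π r0) y) (h2 : r0 = role y ∨ nr ad (π (role y)) (hub r0)) (h3 : ∀ r ∈ rs R, nr ad (π r) (hub r)) :
    Mv R π (phi y) := by
  have := role_mem hy
  refine ⟨Equiv.swap r0 (role y), fun r => ?_, fun r hr => ?_⟩ <;> rw [Equiv.swap_apply_def] <;> split_ifs <;>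
    grind [phi]

theorem lit_mem {C : ℕ × List (Lit U)} (hC : C ∈ cls R) {l : Lit U} (hl : l ∈ C.2) : l.1.2 ∈ xs R := by
  rcases List.mem_append.1 hC with h | h
  · exact List.mem_flatMap.2 ⟨C, h, List.mem_map_of_mem hl⟩
  · simp only [List.mem_flatMap, List.mem_map] at h
    obtain ⟨x, hx, c, -, rfl⟩ := h
    simp only [List.mem_cons, List.not_mem_nil, or_false] at hl
    rcases hl with rfl | rfl <;> exact hx

theorem relC_cls {c : ℕ} {u v : U → Bool} : RelC (cls R) c u v ↔ RelC R c u v := by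
  simp only [RelC, cls, List.forall_mem_append, List.forall_mem_flatMap, List.forall_mem_map]
  exact and_iff_left fun x _ c _ _ => by cases h : v x <;> simp [h]

theorem dom {j c i : ℕ} {u v : U → Bool} (hi : i < 3) (hc : j = i ∨ c = 2) (h : RelC R c u v) {y : X U}
    (hy : y ∈ vs R) : ∃ r ∈ rs R, nr ad (piN j c i u v r) y ∧ (y.1 = 4 → r = role y) := by
  simp only [mem_rs, or_and_right, exists_or, exists_eq_left, piN]
  rcases mem_vs.1 hy with rfl | rfl | ⟨k, hk, ⟨c, -, rfl⟩ | rfl | rfl | rfl | ⟨x, hx, o, n, rfl⟩ | ⟨C, hC, rfl⟩⟩ |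
    ⟨g, hg, rfl | rfl⟩
  any_goals simp [nr, ad]; done
  · simp [nr, ad]; omega
  · simp [nr, ad]; omega
  · by_cases h1 : k = i
    · exact .inr (.inr ⟨_, ⟨x, hx, rfl⟩, by simp [nr, ad, h1]⟩)
    · simp [nr, ad]; omega
  · by_cases h1 : k = i ∧ C.1 = c
    · obtain ⟨l, h2, h3⟩ := relC_cls.2 h C hC h1.2
      refine .inr (.inr ⟨_, ⟨_, lit_mem hC h2, rfl⟩, .inr (.inr ?_), by simp⟩)
      simp only [ad, h1.1]
      refine .inr (.inr (.inr (.inr (.inr (.inr (.inr (.inr ⟨trivial, .inr (.inr ⟨trivial, trivial, l, h2, rfl,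
        ?_⟩)⟩)))))))
      split_ifs at h3 ⊢ <;> exact h3
    · simp [nr, ad]; omega
  · rcases mem_gs.1 hg with rfl | ⟨x, hx, rfl⟩
    · simp [nr, ad, role]
    · exact .inr (.inr ⟨_, ⟨x, hx, rfl⟩, by simp [nr, ad, role]⟩)

theorem hub_nr {y : X U} (hy : y ∈ vs R) : nr ad y (hub (role y)) := by
  rcases mem_vs.1 hy with rfl | rfl | ⟨k, hk, ⟨c, -, rfl⟩ | rfl | rfl | rfl | ⟨x, hx, o, n, rfl⟩ | ⟨C, hC, rfl⟩⟩ |
    ⟨g, hg, rfl | rfl⟩ <;> simp [nr, ad, hub, role]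

theorem mv_N {j c i : ℕ} {u v : U → Bool} (hi : i < 3) (hc : j = i ∨ c = 2) (h : RelC R c u v) {y : X U}
    (hy : y ∈ vs R) : Mv R (piN j c i u v) (phi y) := by
  have : ∀ r r', nr ad (piN j c i u v r) (hub r') := by rintro (_ | _ | _) (_ | _) <;> simp [nr, ad, piN, hub]
  obtain ⟨r, h1, h2, -⟩ := dom hi hc h hy
  exact mv_phi hy h1 h2 (.inr (this ..)) fun _ _ => this ..

theorem mv_F {y y' : X U} (hy : y ∈ vs R) (hy' : y' ∈ vs R) (h : y.1 ≠ 0) (h' : y'.1 ≠ 0) :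
    Mv R (phi y) (phi y') := by
  have h3 : ∀ r ∈ rs R, nr ad (phi y r) (hub r) := fun r _ => by
    unfold phi
    split_ifs with e
    exacts [e ▸ hub_nr hy, .inl rfl]
  by_cases e : role y' = role y
  · by_cases e' : nr ad y y'
    · exact mv_phi hy' (role_mem hy') (by rwa [phi, if_pos e]) (.inl rfl) h3
    · have : role y ≠ none ∧ y.1 ≠ 4 ∧ y'.1 ≠ 4 := by
        have k : ∀ a ∈ vs R, a.1 = 4 → a = pp a.2.2.2.1 := fun a ha => by
          rcases mem_vs.1 ha with rfl | rfl | ⟨k, -, ⟨c, -, rfl⟩ | rfl | rfl | rfl | ⟨x, -, o, n, rfl⟩ | ⟨C, -, rfl⟩⟩ |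
            ⟨g, -, rfl | rfl⟩ <;> simp
        have k1 := k y hy
        have k2 := k y' hy'
        simp only [nr, ad, not_or, role] at e e' ⊢
        split_ifs at e ⊢ <;> grind
      refine mv_phi (r0 := none) hy' (by simp [rs]) ?_ (.inr ?_) h3
      · simp [phi, this.1.symm, hub, nr, ad, this.2.2]
      · simp [phi, e, hub, nr, ad, this.2.1]
  · exact mv_phi hy' (role_mem hy') (by rw [phi, if_neg e]; exact (hub_nr hy').symm) (.inl rfl) h3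

theorem defend {z : U → Bool} (hz : ∀ c < 2, ∀ v, RelC R c z v) (h : Safe R) : LG (vs R) ad (rs R).length := by
  obtain ⟨W0, ⟨v0, i1, i2⟩, h⟩ := h
  obtain ⟨W, w0, wz, h⟩ : ∃ W : (U → Bool) → Prop, W v0 ∧ W z ∧ ∀ u, W u → ∀ c < 2, ∃ v, RelC R c u v ∧ W v := by
    refine ⟨fun u => W0 u ∨ u = z, .inl i2, .inr rfl, ?_⟩
    rintro u (hu | rfl) c hc
    exacts [let ⟨v, h1, h2⟩ := h u hu c hc; ⟨v, h1, .inl h2⟩, ⟨u, hz c hc u, .inr rfl⟩]
  let N : (Option (Option U) → X U) → Prop := fun π => ∃ j c i u v, i < 3 ∧ (c < 2 ∧ j = i ∨ c = 2 ∧ j = 0) ∧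
    RelC R c u v ∧ W u ∧ W v ∧ π = piN j c i u v
  let F : (Option (Option U) → X U) → Prop := fun π => N π ∨ ∃ y ∈ vs R, y.1 ≠ 0 ∧ π = phi y
  have A : ∀ π, F π → ∀ r ∈ rs R, π r ∈ vs R ∧ role (π r) = r := by
    rintro _ (⟨j, c, i, u, v, hi, hc, -, -, -, rfl⟩ | ⟨y, hy, -, rfl⟩) r hr
    · rcases mem_rs.1 hr with rfl | rfl | ⟨x, hx, rfl⟩ <;> refine ⟨mem_vs.2 ?_, rfl⟩
      · rcases hc with ⟨hc, rfl⟩ | ⟨rfl, rfl⟩
        exacts [.inr (.inr (.inl ⟨j, hi, .inl ⟨c, hc, rfl⟩⟩)), .inl rfl]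
      · exact .inr (.inr (.inl ⟨i, hi, .inr (.inl rfl)⟩))
      · exact .inr (.inr (.inl ⟨i, hi, .inr (.inr (.inr (.inr (.inl ⟨x, hx, _, _, rfl⟩))))⟩))
    · unfold phi
      split_ifs with e
      · exact ⟨hy, e.symm⟩
      · rcases r with _ | g
        · exact ⟨by simp [vs, hub], rfl⟩
        · exact ⟨mem_vs.2 (.inr (.inr (.inr ⟨g, by simpa [rs] using hr, .inl rfl⟩))), rfl⟩
  have B : ∀ π, F π → ∀ y ∈ vs R, ∃ π', F π' ∧ π' (role y) = y ∧ Mv R π π' := fun π hπ y hy => by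
    by_cases e : y.1 = 0
    · obtain ⟨k, d, hk, rfl⟩ : ∃ k d, (k < 3 ∧ d < 2 ∨ d = 2 ∧ k = 0) ∧ y = mM k d := by
        rcases mem_vs.1 hy with rfl | rfl | ⟨k, hk, ⟨c, hc, rfl⟩ | rfl | rfl | rfl | ⟨x, -, o, n, rfl⟩ | ⟨C, -, rfl⟩⟩ |
          ⟨g, -, rfl | rfl⟩ <;> simp_all
      rcases hπ with ⟨j, c, i, u, v, hi, hc, h1, hu, hv, rfl⟩ | ⟨y, hy', -, rfl⟩
      · have m : ∀ k' u' v', (k' = i ∨ k' = (i + 1) % 3 ∧ u' = v ∨ i = (k' + 1) % 3 ∧ v' = u) →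
            Mv R (piN j c i u v) (piN k d k' u' v') := fun k' u' v' h2 => ⟨1, by simp, by
          rintro (_ | _ | x) - <;> simp [nr, ad, piN]
          grind⟩
        rcases hk with ⟨hk, hd⟩ | ⟨rfl, rfl⟩
        · obtain ⟨v', h2, h3⟩ := h v hv d hd
          by_cases e : i = (k + 1) % 3
          · exact ⟨_, .inl ⟨k, d, k, z, u, hk, .inl ⟨hd, rfl⟩, hz d hd u, wz, hu, rfl⟩, rfl,
              m _ _ _ (.inr (.inr ⟨e, rfl⟩))⟩
          · exact ⟨_, .inl ⟨k, d, k, v, v', hk, .inl ⟨hd, rfl⟩, h2, hv, h3, rfl⟩, rfl, m _ _ _ (by simp; omega)⟩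
        · exact ⟨_, .inl ⟨0, 2, i, v0, v0, hi, .inr ⟨rfl, rfl⟩, i1, w0, w0, rfl⟩, rfl, m _ _ _ (.inl rfl)⟩
      · rcases hk with ⟨hk, hd⟩ | ⟨rfl, rfl⟩
        · exact ⟨_, .inl ⟨k, d, k, z, z, hk, .inl ⟨hd, rfl⟩, hz d hd z, wz, wz, rfl⟩, rfl,
            (mv_N hk (.inl rfl) (hz d hd z) hy').symm⟩
        · exact ⟨_, .inl ⟨0, 2, 0, v0, v0, by omega, .inr ⟨rfl, rfl⟩, i1, w0, w0, rfl⟩, rfl,
            (mv_N (by omega) (.inl rfl) i1 hy').symm⟩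
    · refine ⟨_, .inr ⟨y, hy, e, rfl⟩, if_pos rfl, ?_⟩
      rcases hπ with ⟨j, c, i, u, v, hi, hc, h1, hu, hv, rfl⟩ | ⟨y', hy', e', rfl⟩
      exacts [mv_N hi (by omega) h1 hy, mv_F hy' hy e' e]
  refine ⟨fun l => ∃ π, F π ∧ ∃ ρ : Equiv.Perm (Option (Option U)), (∀ r, ρ r ∈ rs R ↔ r ∈ rs R) ∧
    l = (rs R).map fun r => π (ρ r), ⟨_, _, .inr ⟨tS, by simp [vs], by simp, rfl⟩, 1, by simp, rfl⟩, ?_⟩
  rintro _ ⟨π, hπ, ρ, hρ, rfl⟩
  refine ⟨by simp, rs_nodup.map_on fun r hr r' hr' e => ρ.injective ?_,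
    List.forall_mem_map.2 fun r hr => (A π hπ _ ((hρ r).2 hr)).1, fun y hy => ?_⟩
  · rw [← (A π hπ _ ((hρ r).2 hr)).2, e, (A π hπ _ ((hρ r').2 hr')).2]
  obtain ⟨π', h1, h2, σ, h3, h4⟩ := B π hπ y hy
  refine ⟨_, ⟨π', h1, ρ.trans σ, fun r => (h3 _).trans (hρ r), rfl⟩,
    List.mem_map.2 ⟨(ρ.trans σ).symm (role y), ?_, by rw [Equiv.apply_symm_apply, h2]⟩, ?_⟩
  · rw [← hρ, ← h3]
    simpa using role_mem hy
  · rw [List.forall₂_map_left_iff, List.forall₂_map_right_iff, List.forall₂_same]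
    exact fun r hr => h4 _ ((hρ r).2 hr)

theorem attack (h2 : ∀ u v, RelC R 2 u v → RelC R 2 v v) {k : ℕ} (hk : k ≤ (rs R).length) (h : LG (vs R) ad k) :
    Safe R := by
  have : DecidableEq (X U) := Classical.decEq _
  obtain ⟨W, ⟨l0, h0⟩, h⟩ := h
  have mv : ∀ l, W l → ∀ y ∈ vs R, ∃ l', W l' ∧ y ∈ l' ∧ ∃ g : X U → X U, (∀ x ∈ l', g x ∈ l ∧ nr ad (g x) x) ∧
      ∀ x ∈ l', ∀ y ∈ l', g x = g y → x = y := fun l hl y hy => by
    obtain ⟨l', h1, h2, h3⟩ := (h l hl).2.2.2 y hy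
    exact ⟨l', h1, h2, fn_of h3.flip (h l hl).2.1⟩
  have dm : ∀ l, W l → ∀ y ∈ vs R, ∃ x ∈ l, nr ad x y := fun l hl y hy =>
    let ⟨_, _, h1, g, h2, _⟩ := mv l hl y hy; ⟨g y, h2 y h1⟩
  have inj : ∀ l, W l → ∀ j c, mM j c ∈ l → ∀ x ∈ l, ∀ y ∈ l, role x = role y → x = y := fun l hl j c hm => by
    have := Finset.injOn_of_surjOn_of_card_le (s := l.toFinset) (t := (rs R).toFinset) role
      (fun x hx => by simpa using role_mem ((h l hl).2.2.1 x (by simpa using hx))) (fun r hr => ?_)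
      (by rw [List.toFinset_card_of_nodup (h l hl).2.1, List.toFinset_card_of_nodup rs_nodup, (h l hl).1]; exact hk)
    · exact fun x hx y hy => this (by simpa using hx) (by simpa using hy)
    rcases r with _ | g
    · exact ⟨_, by simpa using hm, rfl⟩
    · obtain ⟨x, h1, h2⟩ := dm l hl (pp g) (mem_vs.2 (.inr (.inr (.inr ⟨g, by simpa [rs] using hr, .inr rfl⟩))))
      refine ⟨x, by simpa using h1, ?_⟩
      rcases h2 with rfl | h2 | h2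
      · rfl
      · simp [ad] at h2
      · simp [ad] at h2
        rw [role, if_neg (by omega), h2.2.2]
  have st : ∀ l, W l → ∀ j c, c < 3 → mM j c ∈ l → ∃ i < 3, (c < 2 → i = j) ∧ hH i ∈ l ∧
      ∃ u v : U → Bool, (∀ x ∈ xs R, pP x (u x) (v x) i ∈ l) ∧ RelC R c u v := fun l hl j c hc hm => by
    have T : ∀ i d L, tT i d L ∈ vs R → c ≠ d ∨ (∃ i' < 3, i' ≠ i ∧ hH i' ∈ l) ∨ ∃ x o n, pP x o n i ∈ l ∧
        ∃ e ∈ L, x = e.1.2 ∧ (if e.1.1 = true then n else o) = e.2 := fun i d L hL => by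
      obtain ⟨x, h1, h2⟩ := dm l hl _ hL
      have h3 := inj l hl j c hm x h1 _ hm
      rcases mem_vs.1 ((h l hl).2.2.1 x h1) with rfl | rfl | ⟨k, hk, ⟨c, -, rfl⟩ | rfl | rfl | rfl |
        ⟨x, -, o, n, rfl⟩ | ⟨C, -, rfl⟩⟩ | ⟨g, -, rfl | rfl⟩ <;> simp [role, nr, ad] at h2 h3 <;> grind
    obtain ⟨i, hi, -, h1⟩ : ∃ i < 3, i ≠ 3 ∧ hH i ∈ l := by
      simpa using T 3 c [] (mem_vs.2 (.inr (.inr (.inl ⟨c, hc, by simp⟩))))
    have T' : ∀ C ∈ cls R, C.1 = c → ∃ x o n, pP x o n i ∈ l ∧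
        ∃ e ∈ C.2, x = e.1.2 ∧ (if e.1.1 = true then n else o) = e.2 := fun C hC e => by
      rcases T i C.1 C.2 (mem_vs.2 (.inr (.inr (.inl ⟨i, hi, .inr (.inr (.inr (.inr (.inr ⟨C, hC, rfl⟩))))⟩))))
        with h2 | ⟨i', -, h2, h3⟩ | h2
      · exact absurd e.symm h2
      · simpa [h2] using inj l hl j c hm _ h3 _ h1 rfl
      · exact h2
    have : ∀ x, ∃ o n, x ∈ xs R → pP x o n i ∈ l := fun x => by
      by_cases hx : x ∈ xs R
      · obtain ⟨y, o, n, h2, e, h3, h4, -⟩ := T' (c, [((true, x), true), ((true, x), false)])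
          (List.mem_append_right _ (List.mem_flatMap.2 ⟨x, hx, List.mem_map_of_mem (List.mem_range.2 hc)⟩)) rfl
        refine ⟨o, n, fun _ => ?_⟩
        simp at h3
        rcases h3 with rfl | rfl <;> exact (show y = x from h4) ▸ h2
      · simp [hx]
    choose u v huv using this
    refine ⟨i, hi, fun hc => ?_, h1, u, v, huv, relC_cls.1 fun C hC e => ?_⟩
    · have hj : j < 3 := by
        have := mem_vs.1 ((h l hl).2.2.1 _ hm)
        simp at this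
        omega
      obtain ⟨x, h2, h3⟩ := dm l hl (qQ j) (mem_vs.2 (.inr (.inr (.inl ⟨j, hj, by simp⟩))))
      have h4 := inj l hl j c hm x h2 _ hm
      have h5 := inj l hl j c hm x h2 _ h1
      rcases mem_vs.1 ((h l hl).2.2.1 x h2) with rfl | rfl | ⟨k, hk, ⟨c, -, rfl⟩ | rfl | rfl | rfl |
        ⟨x, -, o, n, rfl⟩ | ⟨C, -, rfl⟩⟩ | ⟨g, -, rfl | rfl⟩ <;> simp [role, nr, ad] at h3 h4 h5 <;> omega
    · obtain ⟨_, o, n, h2, e, h3, rfl, h4⟩ := T' C hC e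
      have := inj l hl j c hm _ h2 _ (huv _ (lit_mem hC h3)) rfl
      simp only [Prod.mk.injEq, true_and, and_true] at this
      refine ⟨e, h3, ?_⟩
      split_ifs at h4 ⊢ <;> simp [← this.1, ← this.2, h4]
  refine ⟨fun v => ∃ l, W l ∧ ∃ j c, mM j c ∈ l ∧ ∃ i < 3, hH i ∈ l ∧ ∃ u : U → Bool,
    ∀ x ∈ xs R, pP x (u x) (v x) i ∈ l, ?_, ?_⟩
  · obtain ⟨l, h1, h3, -⟩ := mv l0 h0 (mM 0 2) (by simp [vs])
    obtain ⟨i, hi, -, h4, u, v, h5, h6⟩ := st l h1 0 2 (by omega) h3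
    exact ⟨v, h2 u v h6, l, h1, _, _, h3, i, hi, h4, u, h5⟩
  rintro v ⟨l, hl, j, d, hm, i, hi, h1, u, h3⟩ c hc
  obtain ⟨l', h4, h5, g, g1, g2⟩ := mv l hl (mM ((i + 1) % 3) c)
    (mem_vs.2 (.inr (.inr (.inl ⟨_, by omega, .inl ⟨c, hc, rfl⟩⟩))))
  obtain ⟨_, hi', e, h6, u', v', h7, h8⟩ := st l' h4 _ c (by omega) h5
  obtain rfl := e hc
  have cs : ∀ y ∈ l, y = mM j d ∨ y = hH i ∨ ∃ x ∈ xs R, y = pP x (u x) (v x) i := fun y hy => by
    rcases mem_rs.1 (role_mem ((h l hl).2.2.1 y hy)) with e | e | ⟨x, hx, e⟩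
    exacts [.inl (inj l hl j d hm _ hy _ hm e), .inr (.inl (inj l hl j d hm _ hy _ h1 e)),
      .inr (.inr ⟨x, hx, inj l hl j d hm _ hy _ (h3 x hx) e⟩)]
  have e1 : g (mM ((i + 1) % 3) c) = mM j d := by
    obtain ⟨a, b⟩ := g1 _ h5
    rcases cs _ a with e | e | ⟨x, -, e⟩
    · exact e
    all_goals simp [e, nr, ad] at b
    omega
  have e2 : ∀ x ∈ xs R, u' x = v x := fun x hx => by
    obtain ⟨a, b⟩ := g1 _ (h7 x hx)
    rcases cs _ a with e | e | ⟨y, -, e⟩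
    · simpa using g2 _ (h7 x hx) _ h5 (e.trans e1.symm)
    · simp [e, nr, ad] at b
      omega
    · simp [e, nr, ad] at b
      grind
  refine ⟨v', relC_cls.1 fun C hC e => ?_, l', h4, _, _, h5, _, hi', h6, u', h7⟩
  obtain ⟨a, h9, b⟩ := relC_cls.2 h8 C hC e
  refine ⟨a, h9, ?_⟩
  split_ifs at b ⊢
  exacts [b, e2 _ (lit_mem hC h9) ▸ b]

end Pool.Agent.H.MP_7f5e5b_lc
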