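import Pool.Agent.H.MP_7f5e5b_lc.A

set_option autoImplicit false

namespace Pool.Agent.H.MP_7f5e5b_lc

open Pool.Agent.Lib.CX

variable {U : Type} {R : Fm U}

/-- add a flag whose old value disables the clauses of the two challenges -/
def wild (R : Fm U) : Fm (Option U) :=
  R.map (fun C => (C.1, if C.1 = 2 then C.2.map fun l => ((true, some l.1.2), l.2) else
    ((false, none), true) :: C.2.map fun l => ((l.1.1, some l.1.2), l.2))) ++
  [(0, [((false, none), true), ((true, none), false)]), (1, [((false, none), true), ((true, none), false)]),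
    (2, [((true, none), false)])]

theorem wild_2 {u v : Option U → Bool} :
    RelC (wild R) 2 u v ↔ RelC R 2 (v ∘ some) (v ∘ some) ∧ v none = false := by
  simp only [RelC, wild, List.forall_mem_append, List.forall_mem_map]
  simp +contextual [-Prod.forall, -Prod.exists, and_assoc]

theorem wild_c {c : ℕ} (hc : c < 2) {u v : Option U → Bool} :
    RelC (wild R) c u v ↔ u none = true ∨ RelC R c (u ∘ some) (v ∘ some) ∧ v none = false := by
  have : ∀ l : Lit U, (if l.1.1 = true then v ∘ some else u ∘ some) l.1.2 = (if l.1.1 = true then v else u) (some l.1.2) :=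
    fun l => by split_ifs <;> rfl
  simp only [RelC, wild, List.forall_mem_append, List.forall_mem_map]
  cases h : u none <;> interval_cases c <;> simp +contextual [h, this, -Prod.forall, -Prod.exists, and_assoc]

theorem main [DecidableEq U] (R : Fm U) : Safe R ↔ ∃ k ≤ (rs (wild R)).length, LG (vs (wild R)) ad k := by
  refine ⟨fun ⟨W, ⟨v, h1, h2⟩, h⟩ => ⟨_, le_rfl, defend (z := fun _ => true) (fun c hc v => (wild_c hc).2 (.inl rfl))
    ⟨fun u => W (u ∘ some), ⟨fun x => x.elim false v, wild_2.2 ⟨h1, rfl⟩, h2⟩, fun u hu c hc => ?_⟩⟩,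
    fun ⟨k, h1, h2⟩ => ?_⟩
  · obtain ⟨v, h1, h2⟩ := h _ hu c hc
    exact ⟨fun x => x.elim false v, (wild_c hc).2 (.inr ⟨h1, rfl⟩), h2⟩
  obtain ⟨W, ⟨v, h3, h4⟩, h⟩ := attack (fun u v h => wild_2.2 (wild_2.1 h)) h1 h2
  refine ⟨fun u => ∃ v, W v ∧ v none = false ∧ u = v ∘ some, ⟨_, (wild_2.1 h3).1, v, h4, (wild_2.1 h3).2, rfl⟩, ?_⟩
  rintro _ ⟨u, h5, h6, rfl⟩ c hc
  obtain ⟨v, h7, h8⟩ := h u h5 c hc
  have := ((wild_c hc).1 h7).resolve_left (by simp [h6])
  exact ⟨_, this.1, v, h8, this.2, rfl⟩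

end Pool.Agent.H.MP_7f5e5b_lc
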